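import Mathlib
import Pool.Agent.H.MP_f6eb76_al.Lim

namespace Pool.Agent.Results.MP_f6eb76_al.Full
open Pool.Agent.H.MP_f6eb76_al
universe u

/-- `(W, H)` is a finitely generated subrepresentation. -/
def FGSub {K G V : Type u} [CommRing K] [Group G] [AddCommGroup V] [Module K V]
    (ρ : Representation K G V) (H : Subgroup G) (W : Submodule K V) : Prop :=
  H.FG ∧ ∃ s : Finset V, W = Submodule.span K {x | ∃ h ∈ H, ∃ v ∈ s, x = ρ h v}

/-- `(a, b)` is an automorphism of the representation. -/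
def IsAut {K G V : Type u} [CommRing K] [Group G] [AddCommGroup V] [Module K V]
    (ρ : Representation K G V) (a : V ≃ₗ[K] V) (b : G ≃* G) : Prop :=
  ∀ g v, a (ρ g v) = ρ (b g) (a v)

/-- `(α, β)` is an isomorphism of subrepresentations. -/
def IsIso {K G V : Type u} [CommRing K] [Group G] [AddCommGroup V] [Module K V]
    (ρ : Representation K G V) {H₁ H₂ : Subgroup G} {W₁ W₂ : Submodule K V}
    (α : W₁ ≃ₗ[K] W₂) (β : H₁ ≃* H₂) : Prop :=
  ∀ (h : H₁) (w w' : W₁), w'.1 = ρ h.1 w.1 → (α w').1 = ρ (β h).1 (α w).1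

/-- Every isomorphism of finitely generated subrepresentations extends to an automorphism. -/
def Homogeneous {K G V : Type u} [CommRing K] [Group G] [AddCommGroup V] [Module K V]
    (ρ : Representation K G V) : Prop :=
  ∀ (H₁ H₂ : Subgroup G) (W₁ W₂ : Submodule K V), FGSub ρ H₁ W₁ → FGSub ρ H₂ W₂ →
    ∀ (α : W₁ ≃ₗ[K] W₂) (β : H₁ ≃* H₂), IsIso ρ α β →
      ∃ (a : V ≃ₗ[K] V) (b : G ≃* G), IsAut ρ a b ∧
        (∀ w : W₁, a w.1 = (α w).1) ∧ ∀ h : H₁, b h.1 = (β h).1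

theorem result {K G V : Type u} [CommRing K] [Group G] [AddCommGroup V] [Module K V]
    (ρ : Representation K G V) :
    ∃ (G' V' : Type u) (_ : Group G') (_ : AddCommGroup V') (_ : Module K V')
      (ρ' : Representation K G' V') (α : V →ₗ[K] V') (β : G →* G'),
      Function.Injective α ∧ Function.Injective β ∧ (∀ g v, α (ρ g v) = ρ' (β g) (α v)) ∧
        Homogeneous ρ' := by
  let R : Rp K := ⟨G, V, ρ⟩
  refine ⟨GLim R, VL R, _, _, _, rhoL R, jV R 0, jG R 0, jV_inj R 0, jG_inj R 0,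
    fun g v => (rho_j R 0 g v).symm, ?_⟩
  rintro H₁ H₂ W₁ W₂ ⟨f₁, s₁, e₁⟩ ⟨f₂, s₂, e₂⟩ α β hI
  obtain ⟨n₁, k₁⟩ := fgG R H₁ f₁
  obtain ⟨n₂, k₂⟩ := fgG R H₂ f₂
  obtain ⟨n₃, k₃⟩ := fgV R H₁ f₁ s₁
  obtain ⟨n₄, k₄⟩ := fgV R H₂ f₂ s₂
  rw [← e₁] at k₃
  rw [← e₂] at k₄
  have inv : ∀ h ∈ H₁, ∀ w ∈ W₁, rhoL R h w ∈ W₁ := by
    intro h hh w hw
    have : W₁ ≤ W₁.comap (rhoL R h) := by
      nth_rewrite 1 [e₁]
      rw [Submodule.span_le]
      rintro _ ⟨g, hg, v, hv, rfl⟩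
      rw [e₁]
      exact Submodule.subset_span ⟨h * g, H₁.mul_mem hh hg, v, hv, by simp⟩
    exact this hw
  let a₂ : W₁ →ₗ[K] VL R := W₂.subtype ∘ₗ α.toLinearMap
  obtain ⟨t, t1, t2⟩ := lim_ext R (n₁ + n₂ + n₃ + n₄) H₁ W₁ H₁.subtype
    (H₂.subtype.comp β.toMonoidHom) W₁.subtype a₂
    H₁.subtype_injective (H₂.subtype_injective.comp β.injective)
    W₁.subtype_injective (W₂.subtype_injective.comp α.injective)
    (fun x => k₁ _ (by omega) x.2) (fun x => k₂ _ (by omega) (β x).2)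
    (fun x => k₃ _ (by omega) x.2) (fun x => k₄ _ (by omega) (α x).2)
    (fun h w => ⟨⟨_, inv h h.2 w w.2⟩, rfl, (hI h w ⟨_, inv h h.2 w w.2⟩ rfl).symm⟩)
  refine ⟨LinearEquiv.ofBijective (rhoL R t) ((rhoL R).apply_bijective t), MulAut.conj t,
    fun g v => ?_, t1, t2⟩
  show rhoL R t (rhoL R g v) = rhoL R (t * g * t⁻¹) (rhoL R t v)
  rw [← Module.End.mul_apply, ← Module.End.mul_apply, ← map_mul, ← map_mul, inv_mul_cancel_right]

end Pool.Agent.Results.MP_f6eb76_al.Full
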